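import Pool.Agent.helper99.WN.SpecB

/-!
# MP_5c1f29_al, row wn:BE
-/

set_option autoImplicit false

open Classical

namespace Pool.Agent.WN

namespace BEaux

variable {V : Type} {k : ℕ} {W : ℤ → Lt k} {N m : ℕ} {r : ℤ → ℤ} {z : ℤ → V}

theorem ka_per (hr : Stk W N r) (i : ℤ) : ka N r z (i + N) = ka N r z i := by
  unfold ka
  rw [hr.per i]

theorem ka_le [Fintype V] (hBK : BK_stmt) (hW : Wd W N) (hr : Stk W N r) (i : ℤ) :
    ka N r z i ≤ la W N r z i ∧ ka N r z (i + 1) ≤ la W N r z i := by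
  have h := hBK V k W N r z hW hr i
  rcases al_be_cases (W := W) i with ⟨h1, h2⟩ | ⟨h1, h2⟩
  · rw [h1, h2] at h
    exact h
  · rw [h1, h2] at h
    exact ⟨h.2, h.1⟩

/-- a cyclically decreasing function is constant -/
theorem const_of_dec {f : ℤ → ℤ} (hper : f (N : ℤ) = f 0)
    (hdec : ∀ i : ℕ, i < N → f ((i : ℤ) + 1) ≤ f i) : ∀ i : ℕ, i < N → f i = f 0 := by
  have h1 : ∀ i : ℕ, i ≤ N → f i ≤ f 0 := by
    intro i
    induction i with
    | zero => intro _; simp
    | succ i ih =>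
      intro hi
      have h2 := hdec i (by omega)
      have h3 := ih (by omega)
      push_cast
      omega
  have h2 : ∀ j : ℕ, ∀ i : ℕ, i + j = N → f 0 ≤ f i := by
    intro j
    induction j with
    | zero =>
      intro i hi
      have : i = N := by omega
      rw [this, hper]
    | succ j ih =>
      intro i hi
      have h3 := ih (i + 1) (by omega)
      have h4 := hdec i (by omega)
      push_cast at h3
      omega
  intro i hi
  exact le_antisymm (h1 i (by omega)) (h2 (N - i) i (by omega))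

theorem z_dvd {R : V → Lt k → V → Prop} (hz : Cyc R W N m z) {s t : ℤ}
    (h : ((m : ℤ) * N) ∣ t - s) : z s = z t := ((hz.2 s t).2 h).2

theorem ed_dvd {R : V → Lt k → V → Prop} (hW : Wd W N) (hz : Cyc R W N m z) {s t : ℤ}
    (h : ((m : ℤ) * N) ∣ t - s) : ed W z s = ed W z t := by
  have h1 : W s = W t := (hW.per_dvd (Dvd.dvd.trans (Dvd.intro_left _ rfl) h)).symm
  have h2 : z s = z t := z_dvd hz h
  have h3 : z (s + 1) = z (t + 1) := z_dvd hz (by
    have : t + 1 - (s + 1) = t - s := by ring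
    rw [this]
    exact h)
  unfold ed
  rw [h1, h2, h3]

/-- lower bound at the least rank -/
theorem ka_least [Fintype V] {R : V → Lt k → V → Prop} (hW : Wd W N) (hr : Stk W N r)
    (hm : 1 ≤ m) (hz : Cyc R W N m z) {i : ℤ} (hi : ∀ a : ℤ, r i ≤ r a) :
    (m : ℤ) - 1 ≤ ka N r z i := by
  have hNpos := hW.pos
  have h0 : uu N r z (r i) = ⊥ := by
    unfold uu
    rw [Submodule.span_eq_bot]
    rintro v ⟨a, b, _, h2, _⟩
    exact absurd h2 (not_lt.2 (hi a))
  have h0' : Module.finrank ℚ (uu N r z (r i)) = 0 := by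
    rw [h0]
    exact finrank_bot ℚ _
  -- evaluation map
  let Φ : (V → ℚ) →ₗ[ℚ] (Fin (m - 1) → ℚ) :=
    LinearMap.pi fun j => LinearMap.proj (z (i + (((j : ℕ) : ℤ) + 1) * N))
  have hmap : Submodule.map Φ (uu N r z (r i + 1)) = ⊤ := by
    rw [eq_top_iff, ← (Pi.basisFun ℚ (Fin (m - 1))).span_eq, Submodule.span_le]
    rintro _ ⟨j, rfl⟩
    refine ⟨Pi.single (z (i + (((j : ℕ) : ℤ) + 1) * N)) 1 - Pi.single (z i) 1, ?_, ?_⟩
    · apply Submodule.subset_span
      refine ⟨i + (((j : ℕ) : ℤ) + 1) * N, i, ⟨((j : ℕ) : ℤ) + 1, by ring⟩, ?_, rfl⟩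
      rw [hr.per_mul]
      omega
    · have hne : ∀ j : Fin (m - 1), z (i + (((j : ℕ) : ℤ) + 1) * N) ≠ z i := by
        intro j h
        have h1 := (hz.2 i (i + (((j : ℕ) : ℤ) + 1) * N)).1
          ⟨⟨((j : ℕ) : ℤ) + 1, by ring⟩, h.symm⟩
        have h2 : i + (((j : ℕ) : ℤ) + 1) * N - i = (((j : ℕ) : ℤ) + 1) * N := by ring
        rw [h2] at h1
        have h3 := Int.le_of_dvd (by positivity) h1
        have h4 : (m : ℤ) ≤ ((j : ℕ) : ℤ) + 1 := le_of_mul_le_mul_right h3 (by exact_mod_cast hNpos)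
        have := j.2
        omega
      have hinj : ∀ j j' : Fin (m - 1), z (i + (((j : ℕ) : ℤ) + 1) * N) =
          z (i + (((j' : ℕ) : ℤ) + 1) * N) → j = j' := by
        intro j j' h
        have h1 := (hz.2 (i + (((j : ℕ) : ℤ) + 1) * N) (i + (((j' : ℕ) : ℤ) + 1) * N)).1
          ⟨⟨((j' : ℕ) : ℤ) - ((j : ℕ) : ℤ), by ring⟩, h⟩
        have h2 : i + (((j' : ℕ) : ℤ) + 1) * N - (i + (((j : ℕ) : ℤ) + 1) * N) =
            (((j' : ℕ) : ℤ) - ((j : ℕ) : ℤ)) * N := by ring
        rw [h2] at h1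
        have h3 : (m : ℤ) ∣ ((j' : ℕ) : ℤ) - ((j : ℕ) : ℤ) :=
          Int.dvd_of_mul_dvd_mul_right (by
            have : (0 : ℤ) < N := by exact_mod_cast hNpos
            omega) h1
        have h4 : ((j' : ℕ) : ℤ) - ((j : ℕ) : ℤ) = 0 := by
          apply Int.eq_zero_of_abs_lt_dvd h3
          have := j.2
          have := j'.2
          rw [abs_lt]
          omega
        apply Fin.ext
        omega
      rw [Pi.basisFun_apply]
      funext j'
      simp only [Φ, LinearMap.pi_apply, LinearMap.proj_apply, Pi.sub_apply]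
      rw [Pi.single_apply, Pi.single_apply, Pi.single_apply, if_neg (hne j'), sub_zero]
      by_cases hj : j' = j
      · rw [hj, if_pos rfl, if_pos rfl]
      · rw [if_neg hj, if_neg]
        intro h
        exact hj (hinj _ _ h)
  have h1 := Submodule.finrank_map_le Φ (uu N r z (r i + 1))
  rw [hmap, finrank_top, Module.finrank_fin_fun] at h1
  unfold ka
  rw [h0']
  push_cast
  omega

/-- the upper bound by the number of values -/
theorem dif_le_card {X : Type} [Fintype X] (f : ℤ → X) (U : Finset X) (hmem : ∀ t : ℤ, f t ∈ U) :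
    Module.finrank ℚ (dif N f) + 1 ≤ U.card := by
  let P : Submodule ℚ (X → ℚ) :=
    Submodule.span ℚ ((U.image fun e => (Pi.single e (1 : ℚ) : X → ℚ)) : Set (X → ℚ))
  have hP : Module.finrank ℚ P ≤ U.card :=
    (finrank_span_finset_le_card _).trans Finset.card_image_le
  have hPm : ∀ t : ℤ, (Pi.single (f t) (1 : ℚ) : X → ℚ) ∈ P := by
    intro t
    apply Submodule.subset_span
    rw [Finset.mem_coe, Finset.mem_image]
    exact ⟨f t, hmem t, rfl⟩
  let σ : (X → ℚ) →ₗ[ℚ] ℚ := ∑ e, LinearMap.proj e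
  have hσ : ∀ e : X, σ (Pi.single e 1) = 1 := by
    intro e
    simp only [σ, LinearMap.sum_apply, LinearMap.proj_apply]
    rw [Finset.sum_eq_single e]
    · rw [Pi.single_eq_same]
    · intro b _ hb
      rw [Pi.single_eq_of_ne hb]
    · intro h
      exact absurd (Finset.mem_univ e) h
  have hle : dif N f ≤ P ⊓ LinearMap.ker σ := by
    unfold dif
    rw [Submodule.span_le]
    rintro v ⟨a, b, _, rfl⟩
    refine ⟨P.sub_mem (hPm a) (hPm b), ?_⟩
    rw [SetLike.mem_coe, LinearMap.mem_ker, map_sub, hσ, hσ, sub_self]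
  have hlt : dif N f < P := by
    refine lt_of_le_of_ne (hle.trans inf_le_left) ?_
    intro h
    have h1 := hPm 0
    rw [← h] at h1
    have h2 := (hle h1).2
    rw [SetLike.mem_coe, LinearMap.mem_ker, hσ] at h2
    exact one_ne_zero h2
  have h3 := Submodule.finrank_lt_finrank_of_lt hlt
  omega

/-- the upper bound by the number of edges -/
theorem dif_card [Fintype V] {R : V → Lt k → V → Prop} (hW : Wd W N) (hm : 1 ≤ m)
    (hz : Cyc R W N m z) :
    Module.finrank ℚ (dif N (ed W z)) + 1 ≤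
      ((Finset.range (m * N)).image fun t : ℕ => ed W z t).card := by
  have hmN : 0 < m * N := Nat.mul_pos hm hW.pos
  apply dif_le_card
  intro t
  have hpos : (0 : ℤ) < (m : ℤ) * N := by exact_mod_cast hmN
  have h1 := Int.emod_nonneg t hpos.ne'
  have h2 := Int.emod_lt_of_pos t hpos
  rw [Finset.mem_image]
  refine ⟨(t % ((m : ℤ) * N)).toNat, ?_, ?_⟩
  · rw [Finset.mem_range]
    have : ((t % ((m : ℤ) * N)).toNat : ℤ) < ((m * N : ℕ) : ℤ) := by
      rw [Int.toNat_of_nonneg h1]
      push_cast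
      exact h2
    exact_mod_cast this
  · apply ed_dvd hW hz
    rw [Int.toNat_of_nonneg h1]
    exact Int.dvd_self_sub_emod

end BEaux

open BEaux

theorem BE (hBK : BK_stmt) (hBS : BS_stmt) : BE_stmt := by
  intro V _ k E W N m r z hW hr hm hz
  by_contra hcon
  rw [not_or, not_lt] at hcon
  obtain ⟨hno, hge⟩ := hcon
  have hN := hW.pos
  obtain ⟨hs1, hs2⟩ := hBS V k W N r z hW hr
  -- equality of the sums
  have hle : ∀ i ∈ Finset.range N, ka N r z ((i : ℕ) : ℤ) ≤ la W N r z ((i : ℕ) : ℤ) :=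
    fun i _ => (ka_le hBK hW hr _).1
  have hsum : ∑ i ∈ Finset.range N, ka N r z ((i : ℕ) : ℤ) =
      ∑ i ∈ Finset.range N, la W N r z ((i : ℕ) : ℤ) := by
    apply le_antisymm (Finset.sum_le_sum hle)
    rw [hs1, hs2]
    exact_mod_cast hge
  have heq := (Finset.sum_eq_sum_iff_of_le hle).1 hsum
  have hdec : ∀ i : ℕ, i < N → ka N r z ((i : ℤ) + 1) ≤ ka N r z (i : ℤ) := by
    intro i hi
    rw [heq i (Finset.mem_range.2 hi)]
    exact (ka_le hBK hW hr _).2
  have hper : ka N r z (N : ℤ) = ka N r z 0 := by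
    have := ka_per (z := z) hr 0
    rwa [zero_add] at this
  have hconst := const_of_dec hper hdec
  -- least rank
  obtain ⟨i0, hi0, hmin⟩ := Finset.exists_min_image (Finset.range N) (fun i : ℕ => r i)
    ⟨0, Finset.mem_range.2 hN⟩
  have hminr : ∀ a : ℤ, r (i0 : ℤ) ≤ r a := by
    intro a
    have hNz : (0 : ℤ) < N := by exact_mod_cast hN
    have h1 := Int.emod_nonneg a hNz.ne'
    have h2 := Int.emod_lt_of_pos a hNz
    have h3 := hmin (a % (N : ℤ)).toNat (by rw [Finset.mem_range]; omega)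
    have h4 : (((a % (N : ℤ)).toNat : ℕ) : ℤ) = a % (N : ℤ) := Int.toNat_of_nonneg h1
    have h5 : r a = r (((a % (N : ℤ)).toNat : ℕ) : ℤ) := by
      apply hr.dvd
      rw [h4]
      exact Int.dvd_self_sub_emod
    rw [h5]
    exact h3
  have hka := ka_least (z := z) hW hr (by omega) hz hminr
  rw [hconst i0 (Finset.mem_range.1 hi0)] at hka
  have hcard := dif_card hW (show 1 ≤ m by omega) hz
  set U := (Finset.range (m * N)).image fun t : ℕ => ed W z t with hU
  have htot : (N : ℤ) * ka N r z 0 = Module.finrank ℚ (dif N (ed W z)) := by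
    rw [← hs2, ← hsum, Finset.sum_congr rfl (fun i hi => hconst i (Finset.mem_range.1 hi)),
      Finset.sum_const, Finset.card_range, nsmul_eq_mul]
  -- every edge is used twice
  have h2 : U.card * 2 ≤ m * N := by
    have h3 := Finset.card_eq_sum_card_image (fun t : ℕ => ed W z t) (Finset.range (m * N))
    rw [Finset.card_range] at h3
    rw [h3, ← smul_eq_mul]
    apply Finset.card_nsmul_le_sum
    intro e he
    obtain ⟨t0, ht0, rfl⟩ := Finset.mem_image.1 he
    have h4 : ¬ ∀ t, ed W z t = ed W z (t0 : ℤ) → ((m : ℤ) * N) ∣ t - t0 :=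
      fun h => hno ⟨t0, h⟩
    push Not at h4
    obtain ⟨t, ht, hnd⟩ := h4
    have hpos : (0 : ℤ) < (m : ℤ) * N := by
      have : 0 < m * N := Nat.mul_pos (by omega) hN
      exact_mod_cast this
    have h5 := Int.emod_nonneg t hpos.ne'
    have h6 := Int.emod_lt_of_pos t hpos
    have h7 : (((t % ((m : ℤ) * N)).toNat : ℕ) : ℤ) = t % ((m : ℤ) * N) := Int.toNat_of_nonneg h5
    have h8 : ed W z (((t % ((m : ℤ) * N)).toNat : ℕ) : ℤ) = ed W z t := by
      apply ed_dvd hW hz
      rw [h7]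
      exact Int.dvd_self_sub_emod
    have h9 : (t % ((m : ℤ) * N)).toNat ≠ t0 := by
      intro h
      apply hnd
      rw [← h, h7]
      exact Int.dvd_self_sub_emod
    have h10 : ({t0, (t % ((m : ℤ) * N)).toNat} : Finset ℕ) ⊆
        (Finset.range (m * N)).filter (fun t' : ℕ => ed W z t' = ed W z (t0 : ℤ)) := by
      intro x hx
      rw [Finset.mem_insert, Finset.mem_singleton] at hx
      rw [Finset.mem_filter]
      rcases hx with rfl | rfl
      · exact ⟨ht0, rfl⟩
      · refine ⟨?_, h8.trans ht⟩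
        rw [Finset.mem_range]
        have : ((t % ((m : ℤ) * N)).toNat : ℤ) < ((m * N : ℕ) : ℤ) := by
          rw [h7]
          push_cast
          exact h6
        exact_mod_cast this
    have h11 := Finset.card_le_card h10
    rwa [Finset.card_pair h9.symm] at h11
  have h3 : (N : ℤ) * ((m : ℤ) - 1) + 1 ≤ (U.card : ℤ) := by
    have h4 : (N : ℤ) * ((m : ℤ) - 1) ≤ (N : ℤ) * ka N r z 0 :=
      mul_le_mul_of_nonneg_left hka (by positivity)
    rw [htot] at h4
    have h5 : ((Module.finrank ℚ (dif N (ed W z)) : ℕ) : ℤ) + 1 ≤ (U.card : ℤ) := by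
      exact_mod_cast hcard
    omega
  have h4 : (U.card : ℤ) * 2 ≤ (m : ℤ) * N := by exact_mod_cast h2
  have h5 : (2 : ℤ) * N ≤ (m : ℤ) * N :=
    mul_le_mul_of_nonneg_right (by exact_mod_cast hm) (by positivity)
  nlinarith

end Pool.Agent.WN
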